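import Pool.Agent.K6.H34.UG.View

set_option autoImplicit false

/-! Randomised local algorithms on a cover and on the trivial cover. -/

namespace Pool.Agent.K6.H34.UG

open Finset
open Pool.Agent.TH912.LG
open Pool.Agent.TH912.LS (ball mem_ball ball_self ball_symm ball_trans ball_mono ball_adj dc)

variable {U : Type} [Fintype U] {p : ℕ} [NeZero p] (G : SimpleGraph U) (g h : U × U → ZMod p)

/-- a permutation of the vertices that moves a ball of the cover into a sheet -/
theorem exists_perm {L R : ℕ} (hfar : Far (ug G g h) (fun (a : ZMod p) x => (x.1, x.2 + a)) L)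
    (hR : 2 * R ≤ L) (x : (U × Bool) × ZMod p) (k : ZMod p) :
    ∃ θ : ((U × Bool) × ZMod p) ≃ ((U × Bool) × ZMod p),
      ∀ y ∈ ball (ug G g h).gr x R, θ y = (y.1, k) := by
  classical
  let B : Set ((U × Bool) × ZMod p) := ball (ug G g h).gr x R
  let C : Set ((U × Bool) × ZMod p) := (fun y => (y.1, k)) '' B
  have hinj : Set.InjOn (fun y : (U × Bool) × ZMod p => (y.1, k)) B := by
    intro y hy z hz hyz
    have h1 : y.1 = z.1 := by
      have h2 := congrArg Prod.fst hyz
      exact h2
    exact unique_sheet G g h hfar hy hz (by omega) h1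
  let e : {y // y ∈ B} ≃ {y // y ∈ C} := hinj.bijOn_image.equiv _
  refine ⟨e.extendSubtype, ?_⟩
  intro y hy
  rw [Equiv.extendSubtype_apply_of_mem e y hy]
  rfl

open Classical in
theorem edge_prob {Ω : Type} [Fintype Ω] {R L : ℕ} (A : LocalAlgorithm (ZMod p) Ω R)
    (hfar : Far (ug G g h) (fun (a : ZMod p) x => (x.1, x.2 + a)) L) (hR : 2 * R + 2 ≤ L)
    (e : U × U) (he : G.Adj e.1 e.2) (z : ZMod p) :
    (univ.filter fun ω : (U × Bool) × ZMod p → Ω =>
      g e = A.out (ug G g h) ω ((e.2, false), z + h e) - A.out (ug G g h) ω ((e.1, true), z)).card =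
    (univ.filter fun ω : (U × Bool) × ZMod p → Ω =>
      g e = A.out (ug G g 0) ω ((e.2, false), z + (0 : U × U → ZMod p) e) -
        A.out (ug G g 0) ω ((e.1, true), z)).card := by
  obtain ⟨θ, hθ⟩ := exists_perm G g h (R := R + 1) hfar (by omega) ((e.1, true), z) z
  have hadj : (ug G g h).gr.Adj ((e.1, true), z) ((e.2, false), z + h e) := by
    apply adj_of_con
    rw [con_ne]
    exact ⟨rfl, rfl, he, rfl⟩
  refine card_bij (fun ω _ => fun v => ω (θ.symm v)) ?_ ?_ ?_
  · intro ω hω
    rw [mem_filter] at hω ⊢
    refine ⟨mem_univ _, ?_⟩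
    have h1 : A.out (ug G g h) ω ((e.1, true), z) =
        A.out (ug G g 0) (fun v => ω (θ.symm v)) ((e.1, true), z) := by
      apply A.invariant
      refine sameView G g h ω _ hfar (by omega) ((e.1, true), z) z ?_
      intro y hy
      have := hθ y (ball_mono hy (by omega))
      show ω (θ.symm (y.1, z)) = ω y
      rw [← this, Equiv.symm_apply_apply]
    have h2 : A.out (ug G g h) ω ((e.2, false), z + h e) =
        A.out (ug G g 0) (fun v => ω (θ.symm v)) ((e.2, false), z) := by
      apply A.invariant
      refine sameView G g h ω _ hfar (by omega) ((e.2, false), z + h e) z ?_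
      intro y hy
      have h3 := ball_trans (ball_adj hadj) hy
      have := hθ y (ball_mono h3 (by omega))
      show ω (θ.symm (y.1, z)) = ω y
      rw [← this, Equiv.symm_apply_apply]
    rw [← h1, Pi.zero_apply, add_zero, ← h2]
    exact hω.2
  · intro ω _ ω' _ hωω
    funext v
    have := congrFun hωω (θ v)
    simpa using this
  · intro ω hω
    rw [mem_filter] at hω
    refine ⟨fun v => ω (θ v), ?_, by funext v; simp⟩
    rw [mem_filter]
    refine ⟨mem_univ _, ?_⟩
    have h1 : A.out (ug G g h) (fun v => ω (θ v)) ((e.1, true), z) =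
        A.out (ug G g 0) ω ((e.1, true), z) := by
      apply A.invariant
      refine sameView G g h _ ω hfar (by omega) ((e.1, true), z) z ?_
      intro y hy
      have := hθ y (ball_mono hy (by omega))
      show ω (y.1, z) = ω (θ y)
      rw [this]
    have h2 : A.out (ug G g h) (fun v => ω (θ v)) ((e.2, false), z + h e) =
        A.out (ug G g 0) ω ((e.2, false), z) := by
      apply A.invariant
      refine sameView G g h _ ω hfar (by omega) ((e.2, false), z + h e) z ?_
      intro y hy
      have h3 := ball_trans (ball_adj hadj) hy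
      have := hθ y (ball_mono h3 (by omega))
      show ω (y.1, z) = ω (θ y)
      rw [this]
    rw [h1, h2]
    have := hω.2
    rwa [Pi.zero_apply, add_zero] at this

open Classical in
/-- the expected number of satisfied constraints is the same -/
theorem expected {Ω : Type} [Fintype Ω] {R L : ℕ} (A : LocalAlgorithm (ZMod p) Ω R)
    (hfar : Far (ug G g h) (fun (a : ZMod p) x => (x.1, x.2 + a)) L) (hR : 2 * R + 2 ≤ L) :
    ∑ ω : (U × Bool) × ZMod p → Ω, numSat (ug G g h) (A.out (ug G g h) ω) =
      ∑ ω : (U × Bool) × ZMod p → Ω, numSat (ug G g 0) (A.out (ug G g 0) ω) := by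
  simp only [numSat_ug]
  rw [sum_comm, sum_comm (s := (univ : Finset ((U × Bool) × ZMod p → Ω)))]
  refine sum_congr rfl fun z _ => ?_
  have h1 : ∀ (P : ((U × Bool) × ZMod p → Ω) → U × U → Prop) [∀ ω e, Decidable (P ω e)],
      ∑ ω : (U × Bool) × ZMod p → Ω, ((univ.filter fun e : U × U => G.Adj e.1 e.2).filter
        fun e => P ω e).card =
      ∑ e ∈ univ.filter fun e : U × U => G.Adj e.1 e.2, (univ.filter fun ω => P ω e).card := by
    intro P _
    simp only [card_filter]
    rw [sum_comm]
  rw [h1 (fun ω e => g e = A.out (ug G g h) ω ((e.2, false), z + h e) -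
      A.out (ug G g h) ω ((e.1, true), z)),
    h1 (fun ω e => g e = A.out (ug G g 0) ω ((e.2, false), z + (0 : U × U → ZMod p) e) -
      A.out (ug G g 0) ω ((e.1, true), z))]
  refine sum_congr rfl fun e he => ?_
  exact edge_prob G g h A hfar hR e (mem_filter.mp he).2 z

end Pool.Agent.K6.H34.UG
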