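import Pool.Agent.TH912.LG.Defs

set_option autoImplicit false

/-! Unique games and randomised local algorithms: definitions. -/

namespace Pool.Agent.K6.H34.UG

open Pool.Agent.TH912.LG

/-- Unique game: all constraints go from left to right and every constraint map is injective. -/
def Unique {Q V : Type} (X : Game Q V) : Prop :=
  (∀ u v, X.con u v ≠ none → X.side u = true ∧ X.side v = false) ∧
  ∀ u v π, X.con u v = some π → Function.Injective π

/-- A (randomised) local algorithm of radius `R`: the label of a vertex is a function of the
isomorphism type of its radius-`R` view, including the random element `ω v` of `Ω` at every vertex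
`v` of the view. -/
structure LocalAlgorithm (Q Ω : Type) (R : ℕ) where
  out : {V : Type} → Game Q V → (V → Ω) → V → Q
  invariant : ∀ {V V' : Type} (X : Game Q V) (ω : V → Ω) (v : V)
    (X' : Game Q V') (ω' : V' → Ω) (v' : V'),
    SameView R X ω v X' ω' v' → out X ω v = out X' ω' v'

end Pool.Agent.K6.H34.UG
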