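import Mathlib

set_option autoImplicit false

/-! Random shifts: a large deviation bound by exponential moments. -/

namespace Pool.Agent.K6.H34.UG

open Finset

theorem moment {E P : Type} [Fintype E] [DecidableEq E] [Fintype P] [DecidableEq P]
    (E0 : Finset E) (t : E → P) (s : ℝ) :
    ∑ g : E → P, (1 + s) ^ (E0.filter fun e => g e = t e).card =
      (Fintype.card P + s) ^ E0.card * (Fintype.card P : ℝ) ^ (E0ᶜ).card := by
  have h1 : ∀ g : E → P, (1 + s) ^ (E0.filter fun e => g e = t e).card =
      ∏ e : E, (if e ∈ E0 then (if g e = t e then 1 + s else 1) else 1) := by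
    intro g
    rw [prod_ite, prod_const_one, mul_one, prod_ite, prod_const_one, mul_one, prod_const]
    congr 2
    ext e
    simp
  simp only [h1]
  have h2 := (Finset.prod_univ_sum (fun _ : E => (univ : Finset P))
    (fun e x => if e ∈ E0 then (if x = t e then 1 + s else 1) else 1)).symm
  rw [Fintype.piFinset_univ] at h2
  rw [h2]
  have h3 : ∀ e : E, ∑ x : P, (if e ∈ E0 then (if x = t e then 1 + s else 1) else 1) =
      if e ∈ E0 then (Fintype.card P + s) else (Fintype.card P : ℝ) := by
    intro e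
    by_cases he : e ∈ E0
    · simp only [he, if_true]
      have : ∀ x : P, (if x = t e then 1 + s else (1 : ℝ)) = 1 + if x = t e then s else 0 := by
        intro x; split_ifs <;> ring
      simp only [this]
      rw [sum_add_distrib]
      simp
    · simp [he]
  simp only [h3]
  rw [prod_ite, prod_const, prod_const]
  congr 2
  · congr 1
    ext e; simp
  · congr 1
    ext e; simp

/-- Some shift agrees with every one of the targets in fewer than `a` places of `E0`. -/
theorem exists_shift {E P Λ : Type} [Fintype E] [DecidableEq E] [Fintype P] [DecidableEq P]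
    [Nonempty P] [Fintype Λ] (E0 : Finset E) (t : Λ → E → P) (a : ℕ) (s : ℝ) (hs : 0 < s)
    (h : (Fintype.card Λ : ℝ) * (1 + s / Fintype.card P) ^ E0.card < (1 + s) ^ a) :
    ∃ g : E → P, ∀ l : Λ, (E0.filter fun e => g e = t l e).card < a := by
  classical
  by_contra hcon
  push Not at hcon
  have hP : (0 : ℝ) < Fintype.card P := by exact_mod_cast Fintype.card_pos
  have h1 : ∀ g : E → P, (1 + s) ^ a ≤
      ∑ l : Λ, (1 + s) ^ (E0.filter fun e => g e = t l e).card := by
    intro g
    obtain ⟨l, hl⟩ := hcon g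
    refine (pow_le_pow_right₀ (by linarith) hl).trans ?_
    exact single_le_sum (f := fun l : Λ => (1 + s) ^ (E0.filter fun e => g e = t l e).card)
      (fun _ _ => by positivity) (mem_univ l)
  have h2 : ∑ g : E → P, (1 + s) ^ a ≤
      ∑ g : E → P, ∑ l : Λ, (1 + s) ^ (E0.filter fun e => g e = t l e).card :=
    sum_le_sum fun g _ => h1 g
  rw [sum_comm] at h2
  simp only [moment] at h2
  rw [sum_const, sum_const, card_univ, card_univ, nsmul_eq_mul, nsmul_eq_mul, Fintype.card_fun] at h2
  have h3 : (((Fintype.card P ^ Fintype.card E : ℕ) : ℝ)) =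
      (Fintype.card P : ℝ) ^ E0.card * (Fintype.card P : ℝ) ^ (E0ᶜ).card := by
    push_cast
    rw [← pow_add, card_add_card_compl]
  rw [h3] at h2
  have h4 : (Fintype.card P + s) ^ E0.card =
      (Fintype.card P : ℝ) ^ E0.card * (1 + s / Fintype.card P) ^ E0.card := by
    rw [← mul_pow]
    congr 1
    field_simp
  rw [h4] at h2
  have h5 : (0 : ℝ) < (Fintype.card P : ℝ) ^ E0.card * (Fintype.card P : ℝ) ^ (E0ᶜ).card := by
    positivity
  have h6 : (Fintype.card P : ℝ) ^ E0.card * (Fintype.card P : ℝ) ^ (E0ᶜ).card * (1 + s) ^ a ≤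
      (Fintype.card P : ℝ) ^ E0.card * (Fintype.card P : ℝ) ^ (E0ᶜ).card *
        ((Fintype.card Λ : ℝ) * (1 + s / Fintype.card P) ^ E0.card) := by
    calc _ ≤ _ := h2
      _ = _ := by ring
  have h7 := le_of_mul_le_mul_left h6 h5
  linarith

/-- the numerical condition for the labellings of the base game -/
theorem numeric (q n M a : ℕ) (η : ℝ) (hq : 2 ≤ q) (hη : 0 < η) (hη1 : η ≤ 1) (hn : 1 ≤ n)
    (hM : 8 * q * n / η ^ 2 ≤ M) (ha : (1 / q + η) * M ≤ a) :
    ((q ^ (2 * n) : ℕ) : ℝ) * (1 + (η / 2) / q) ^ M < (1 + η / 2) ^ a := by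
  have hqR : (2 : ℝ) ≤ q := by exact_mod_cast hq
  have hq0 : (0 : ℝ) < q := by linarith
  have hnR : (1 : ℝ) ≤ n := by exact_mod_cast hn
  set s : ℝ := η / 2 with hs
  have hs0 : 0 < s := by positivity
  have hlogq : Real.log q ≤ q := by
    have := Real.log_le_sub_one_of_pos hq0
    linarith
  have h1 : Real.log (1 + s / q) ≤ s / q := by
    have := Real.log_le_sub_one_of_pos (show 0 < 1 + s / q by positivity)
    linarith
  have h2 : s * (1 - s / 2) ≤ Real.log (1 + s) := by
    have := Real.le_log_one_add_of_nonneg hs0.le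
    refine le_trans ?_ this
    rw [le_div_iff₀ (by positivity)]
    nlinarith [sq_nonneg s, mul_pos hs0 hs0]
  have hs1 : s ≤ 1 / 2 := by rw [hs]; linarith
  have hMR : (0 : ℝ) ≤ M := by positivity
  have key : (2 * n : ℕ) * Real.log q + M * Real.log (1 + s / q) < a * Real.log (1 + s) := by
    have e1 : (1 / q + η) * M * (s * (1 - s / 2)) ≤ a * Real.log (1 + s) := by
      have : 0 ≤ s * (1 - s / 2) := by nlinarith
      have h3 : (0 : ℝ) ≤ a := by positivity
      calc (1 / q + η) * M * (s * (1 - s / 2)) ≤ a * (s * (1 - s / 2)) := by gcongr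
        _ ≤ a * Real.log (1 + s) := by gcongr
    have e2 : M * Real.log (1 + s / q) ≤ M * (s / q) := by gcongr
    have e3 : ((2 * n : ℕ) : ℝ) * Real.log q ≤ 2 * n * q := by
      push_cast
      gcongr
    have e4 : 8 * q * n ≤ M * η ^ 2 := by
      rwa [div_le_iff₀ (by positivity)] at hM
    have e5 : (1 : ℝ) / q ≤ 1 / 2 := by
      apply one_div_le_one_div_of_le <;> linarith
    have e6 : (1 / q + η) * (s * (1 - s / 2)) - s / q ≥ 5 / 16 * η ^ 2 := by
      have : (1 / q + η) * (s * (1 - s / 2)) - s / q = s * (η - (1 / q + η) * s / 2) := by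
        field_simp
        ring
      rw [this]
      have e7 : (1 / q + η) * s / 2 ≤ 3 / 4 * s := by nlinarith
      have e8 : η - (1 / q + η) * s / 2 ≥ 5 / 8 * η := by rw [hs] at e7 ⊢; linarith
      calc s * (η - (1 / q + η) * s / 2) ≥ s * (5 / 8 * η) := by gcongr
        _ = 5 / 16 * η ^ 2 := by rw [hs]; ring
    have e9 : M * (5 / 16 * η ^ 2) ≤ M * ((1 / q + η) * (s * (1 - s / 2)) - s / q) := by
      gcongr
    have e10 : (0 : ℝ) < n * q := by positivity
    nlinarith
  have h3 := Real.log_pos (show (1 : ℝ) < 1 + s by linarith)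
  rw [← Real.log_lt_log_iff (by positivity) (by positivity),
    Real.log_mul (by positivity) (by positivity)]
  push_cast
  rw [Real.log_pow, Real.log_pow, Real.log_pow]
  exact key

end Pool.Agent.K6.H34.UG
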