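import Pool.Agent.TH912.LG.Cover
import Pool.Agent.K6.H34.UG.Shift
import Pool.Agent.K6.H34.UG.Defs

set_option autoImplicit false

/-! Unique games: cyclic covers of bipartite games with random shifts. -/

namespace Pool.Agent.K6.H34.UG

open Finset
open Pool.Agent.TH912.LG
open Pool.Agent.TH912.LS (ball mem_ball ball_self ball_symm ball_trans ball_mono ball_adj dc)
open Pool.Agent.W179.Erdos (FCyc)

variable {U : Type} {p : ℕ}

open Classical in
/-- The game with `p` sheets over the double cover of `G`: the constraint of an edge `e` is the shift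
by `g e`, and it goes from the sheet `x` to the sheet `x + h e`. -/
noncomputable def ug (G : SimpleGraph U) (g h : U × U → ZMod p) :
    Game (ZMod p) ((U × Bool) × ZMod p) where
  side x := x.1.2
  con x y := if x.1.2 = true ∧ y.1.2 = false ∧ G.Adj x.1.1 y.1.1 ∧
      y.2 = x.2 + h (x.1.1, y.1.1) then
    some (fun a => a + g (x.1.1, y.1.1)) else none

variable (G : SimpleGraph U) (g h : U × U → ZMod p)

theorem con_ne {x y : (U × Bool) × ZMod p} :
    (ug G g h).con x y ≠ none ↔ x.1.2 = true ∧ y.1.2 = false ∧ G.Adj x.1.1 y.1.1 ∧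
      y.2 = x.2 + h (x.1.1, y.1.1) := by
  unfold ug
  dsimp only
  split_ifs with h
  · exact ⟨fun _ => h, fun _ => by simp⟩
  · exact ⟨fun h' => absurd rfl h', fun h' => absurd h' h⟩

theorem con_some {x y : (U × Bool) × ZMod p} {π : ZMod p → ZMod p} :
    (ug G g h).con x y = some π ↔ (x.1.2 = true ∧ y.1.2 = false ∧ G.Adj x.1.1 y.1.1 ∧
      y.2 = x.2 + h (x.1.1, y.1.1)) ∧ (fun a => a + g (x.1.1, y.1.1)) = π := by
  unfold ug
  dsimp only
  split_ifs with h
  · simp only [Option.some.injEq]
    exact ⟨fun h' => ⟨h, h'⟩, fun h' => h'.2⟩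
  · simp only [reduceCtorEq, false_iff]
    exact fun h' => h h'.1

theorem gr_adj {x y : (U × Bool) × ZMod p} (hxy : (ug G g h).gr.Adj x y) :
    (dc G).Adj x.1 y.1 := by
  obtain ⟨_, h | h⟩ := hxy
  · rw [con_ne] at h
    exact ⟨h.2.2.1, by rw [h.1, h.2.1]; simp⟩
  · rw [con_ne] at h
    exact ⟨h.2.2.1.symm, by rw [h.1, h.2.1]; simp⟩

theorem gr_back {x y z : (U × Bool) × ZMod p} (hxy : (ug G g h).gr.Adj x y)
    (hyz : (ug G g h).gr.Adj y z) (hz : z.1 = x.1) : z = x := by
  obtain ⟨_, h⟩ := hxy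
  obtain ⟨_, h'⟩ := hyz
  rw [con_ne, con_ne] at h h'
  refine Prod.ext hz ?_
  rcases h with h | h <;> rcases h' with h' | h'
  · have := h.2.1
    rw [h'.1] at this
    exact absurd this (by simp)
  · have e1 := h.2.2.2
    have e2 := h'.2.2.2
    rw [hz, e1] at e2
    exact (add_right_cancel e2).symm
  · have e1 := h.2.2.2
    have e2 := h'.2.2.2
    rw [hz] at e2
    rw [e1, e2]
  · have := h.1
    rw [h'.2.1] at this
    exact absurd this (by simp)

theorem ug_far {L : ℕ} (hL : ∀ l φ, FCyc G l φ → L < l) :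
    Far (ug G g h) (fun (a : ZMod p) x => (x.1, x.2 + a)) L where
  h0 := fun x => by simp
  hadd := fun a b x => by
    ext
    · rfl
    · rfl
    · show x.2 + (a + b) = x.2 + b + a
      ring
  hside := fun a v => rfl
  hcon := by
    intro a u v
    have h1 : (v.2 + a = u.2 + a + h (u.1.1, v.1.1)) ↔ (v.2 = u.2 + h (u.1.1, v.1.1)) := by
      constructor
      · intro h'
        have : v.2 + a = (u.2 + h (u.1.1, v.1.1)) + a := by rw [h']; ring
        exact add_right_cancel this
      · intro h'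
        rw [h']; ring
    unfold ug
    dsimp only
    by_cases hc : u.1.2 = true ∧ v.1.2 = false ∧ G.Adj u.1.1 v.1.1 ∧ v.2 = u.2 + h (u.1.1, v.1.1)
    · rw [if_pos hc, if_pos ⟨hc.1, hc.2.1, hc.2.2.1, h1.mpr hc.2.2.2⟩]
    · rw [if_neg hc, if_neg fun h' => hc ⟨h'.1, h'.2.1, h'.2.2.1, h1.mp h'.2.2.2⟩]
  far := by
    rintro a x ⟨w, hw⟩
    by_contra ha
    obtain ⟨l, h, hl, hc⟩ := lift_cyc (D := dc G) (H := (ug G g h).gr) Prod.fst
      (fun s s' hs => gr_adj G g h hs) (fun s s' s'' h1 h2 h3 => gr_back G g h h1 h2 h3)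
      w.length (fun i => w.getVert i) (fun i hi => w.adj_getVert_succ hi)
      (by simp) (by
        simp only [SimpleGraph.Walk.getVert_length, SimpleGraph.Walk.getVert_zero]
        intro h
        have h2 : x.2 + a = x.2 := congrArg Prod.snd h
        exact ha (by simpa using h2))
    obtain ⟨l', h', hl', hc'⟩ := dc_cyc hc
    have := hL l' h' hc'
    omega

theorem ug_satisfiable : Satisfiable (ug G g g) := by
  refine ⟨fun x => x.2, ?_⟩
  intro x y π h
  rw [con_some] at h
  obtain ⟨⟨_, _, _, h1⟩, rfl⟩ := h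
  exact h1.symm

theorem ug_unique : Unique (ug G g h) := by
  refine ⟨?_, ?_⟩
  · intro x y h
    rw [con_ne] at h
    exact ⟨h.1, h.2.1⟩
  · intro x y π h
    rw [con_some] at h
    obtain ⟨_, rfl⟩ := h
    exact add_left_injective _

theorem ug_degree {Δ : ℕ} (hdeg : ∀ u, (G.neighborSet u).ncard ≤ Δ) [Finite U]
    (x : (U × Bool) × ZMod p) : ((ug G g h).gr.neighborSet x).ncard ≤ Δ := by
  refine le_trans (b := (G.neighborSet x.1.1).ncard) ?_ (hdeg _)
  refine Set.ncard_le_ncard_of_injOn (fun y => y.1.1) ?_ ?_ (Set.toFinite _)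
  · intro y hy
    exact (gr_adj G g h hy).1
  · intro y hy z hz hyz
    have hyz' : y.1.1 = z.1.1 := hyz
    have e1 := gr_adj G g h hy
    have e2 := gr_adj G g h hz
    have hs : y.1.2 = z.1.2 := by
      have a1 := e1.2
      have a2 := e2.2
      revert a1 a2
      cases x.1.2 <;> cases y.1.2 <;> cases z.1.2 <;> simp
    have h1 : z.1 = y.1 := Prod.ext hyz'.symm hs.symm
    exact (gr_back G g h (SimpleGraph.Adj.symm hy) hz h1).symm

section counts

variable [Fintype U] [NeZero p]

/-- the constraints of the cover, as a function of an edge of the base and a sheet -/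
def edge (e : (U × U) × ZMod p) : ((U × Bool) × ZMod p) × ((U × Bool) × ZMod p) :=
  (((e.1.1, true), e.2), ((e.1.2, false), e.2 + h e.1))

omit [Fintype U] [NeZero p] in
theorem edge_inj : Function.Injective (edge h) := by
  rintro ⟨⟨u, v⟩, x⟩ ⟨⟨u', v'⟩, x'⟩ h
  simp only [edge, Prod.mk.injEq, and_true] at h
  obtain ⟨⟨rfl, rfl⟩, rfl, _⟩ := h
  rfl

open Classical in
theorem numCon_ug :
    numCon (ug G g h) = (univ.filter fun e : U × U => G.Adj e.1 e.2).card * p := by
  have h1 : {e : ((U × Bool) × ZMod p) × ((U × Bool) × ZMod p) | (ug G g h).con e.1 e.2 ≠ none} =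
      edge h '' (((univ.filter fun e : U × U => G.Adj e.1 e.2) ×ˢ (univ : Finset (ZMod p)) :
        Finset ((U × U) × ZMod p)) : Set ((U × U) × ZMod p)) := by
    ext ⟨x, y⟩
    rw [Set.mem_ofPred_eq, con_ne]
    constructor
    · rintro ⟨h1, h2, h3, h4⟩
      dsimp only at h1 h2 h3 h4
      refine ⟨((x.1.1, y.1.1), x.2), ?_, ?_⟩
      · simp [h3]
      · simp only [edge]
        ext <;> simp [h1, h2, h4]
    · rintro ⟨⟨e, z⟩, h1, h2⟩
      simp only [coe_product, Set.mem_prod, mem_coe, mem_filter, mem_univ, true_and,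
        and_true] at h1
      simp only [edge, Prod.mk.injEq] at h2
      obtain ⟨rfl, rfl⟩ := h2
      exact ⟨rfl, rfl, h1, rfl⟩
  unfold numCon
  rw [h1, Set.ncard_image_of_injective _ (edge_inj h), Set.ncard_coe_finset, card_product,
    card_univ, ZMod.card]

open Classical in
/-- the constraints satisfied by a labelling, sheet by sheet -/
theorem numSat_ug (L : (U × Bool) × ZMod p → ZMod p) :
    numSat (ug G g h) L = ∑ z : ZMod p, ((univ.filter fun e : U × U => G.Adj e.1 e.2).filter
      fun e => g e = L ((e.2, false), z + h e) - L ((e.1, true), z)).card := by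
  have h1 : {e : ((U × Bool) × ZMod p) × ((U × Bool) × ZMod p) |
      ∃ π, (ug G g h).con e.1 e.2 = some π ∧ π (L e.1) = L e.2} =
      edge h '' (((univ : Finset (ZMod p)).biUnion fun z =>
        ((((univ.filter fun e : U × U => G.Adj e.1 e.2).filter
      fun e => g e = L ((e.2, false), z + h e) - L ((e.1, true), z)) ×ˢ {z}) :
        Finset ((U × U) × ZMod p)) : Finset ((U × U) × ZMod p)) : Set ((U × U) × ZMod p)) := by
    ext ⟨x, y⟩
    rw [Set.mem_ofPred_eq]
    constructor
    · rintro ⟨π, h0, h5⟩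
      rw [con_some] at h0
      obtain ⟨⟨h1, h2, h3, h4⟩, rfl⟩ := h0
      simp only at h1 h2 h3 h4 h5
      have e1 : ((x.1.1, true), x.2) = x := Prod.ext (Prod.ext rfl h1.symm) rfl
      have e2 : ((y.1.1, false), x.2 + h (x.1.1, y.1.1)) = y :=
        Prod.ext (Prod.ext rfl h2.symm) h4.symm
      refine ⟨((x.1.1, y.1.1), x.2), ?_, ?_⟩
      · simp only [mem_coe, mem_biUnion, mem_univ, true_and]
        refine ⟨x.2, ?_⟩
        rw [mem_product]
        refine ⟨?_, by simp⟩
        rw [mem_filter, mem_filter]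
        refine ⟨⟨mem_univ _, h3⟩, ?_⟩
        rw [e1, e2, ← h5]
        ring
      · exact Prod.ext e1 e2
    · rintro ⟨⟨e, z⟩, h1, h2⟩
      simp only [mem_coe, mem_biUnion, mem_univ, true_and] at h1
      obtain ⟨z', h1⟩ := h1
      rw [mem_product, mem_filter, mem_filter, mem_singleton] at h1
      obtain ⟨⟨⟨_, h3⟩, h4⟩, h5⟩ := h1
      simp only at h3 h4 h5
      subst h5
      simp only [edge, Prod.mk.injEq] at h2
      obtain ⟨rfl, rfl⟩ := h2
      refine ⟨fun a => a + g e, ?_, ?_⟩
      · rw [con_some]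
        exact ⟨⟨rfl, rfl, h3, rfl⟩, rfl⟩
      · show L ((e.1, true), z) + g e = L ((e.2, false), z + h e)
        rw [h4]
        ring
  unfold numSat
  rw [h1, Set.ncard_image_of_injective _ (edge_inj h), Set.ncard_coe_finset, card_biUnion]
  · refine sum_congr rfl fun z _ => ?_
    rw [card_product, card_singleton, mul_one]
  · intro z _ z' _ hz
    rw [Function.onFun, disjoint_left]
    rintro e he he'
    rw [mem_product, mem_singleton] at he he'
    exact hz (he.2.symm.trans he'.2)

end counts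

end Pool.Agent.K6.H34.UG
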