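import Pool.Agent.K6.H34.UG.Alg

set_option autoImplicit false

/-! The lower bound for unique games. -/

namespace Pool.Agent.K6.H34.UG

open Finset
open Pool.Agent.TH912.LG
open Pool.Agent.TH912.LS (ball mem_ball ball_self ball_symm ball_trans ball_mono ball_adj dc)
open Pool.Agent.W179.Erdos (FCyc)

theorem sum_inst {α : Type*} (i j : Fintype α) (f : α → ℝ) :
    ∑ x ∈ @Finset.univ α i, f x = ∑ x ∈ @Finset.univ α j, f x := by
  rw [Subsingleton.elim i j]

theorem card_inst {α : Type*} (i j : Fintype α) : @Fintype.card α i = @Fintype.card α j := by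
  rw [Subsingleton.elim i j]

open Classical in
theorem lower (q : ℕ) (hq : 2 ≤ q) (η : ℝ) (hη : 0 < η) (hη1 : η ≤ 1) :
    ∃ (Δ : ℕ) (c : ℝ), 0 < c ∧ ∀ N : ℕ, ∃ (V : Type) (_ : Fintype V) (X Y : Game (ZMod q) V),
      N ≤ Fintype.card V ∧ Unique X ∧ Unique Y ∧ 0 < numCon X ∧ numCon Y = numCon X ∧
      (∀ v, (X.gr.neighborSet v).ncard ≤ Δ ∧ (Y.gr.neighborSet v).ncard ≤ Δ) ∧
      Satisfiable X ∧ (∀ L : V → ZMod q, (numSat Y L : ℝ) ≤ (1 / q + η) * numCon Y) ∧
      (∀ R : ℕ, (R + 2 : ℝ) ≤ c * Real.log (Fintype.card V) → ∀ v : V,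
        SameView R X (fun _ => ()) v Y (fun _ => ()) v) ∧
      (∀ (R : ℕ) (Ω : Type) [Fintype Ω] (A : LocalAlgorithm (ZMod q) Ω R),
        (R + 2 : ℝ) ≤ c * Real.log (Fintype.card V) →
        ∑ ω : V → Ω, (numSat X (A.out X ω) : ℝ) ≤
          (1 / q + η) * numCon X * Fintype.card (V → Ω)) ∧
      ∀ (S : Type) [Finite S] (lab : Bool → S → ZMod q) (r m t : ℕ) (F : LocalCost (ZMod q) S r)
        (start : V → S),
        (m * (t + r + 1) : ℝ) ≤ c * Real.log (Fintype.card V) →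
        (∀ φ : V ≃ V, IsAut X φ → ∀ v, start (φ v) = start v) →
        ∃ σ : V → S, Relation.ReflTransGen (Step F m t X) start σ ∧
          (∀ σ', ¬ Step F m t X σ σ') ∧
          (numSat X (fun v => lab (X.side v) (σ v)) : ℝ) ≤ (1 / q + η) * numCon X := by
  classical
  have hq0 : 0 < q := by omega
  have hqR : (0 : ℝ) < q := by exact_mod_cast hq0
  have : NeZero q := ⟨by omega⟩
  obtain ⟨d, hd1, hd⟩ : ∃ d : ℕ, 1 ≤ d ∧ 16 * q / η ^ 2 ≤ (d : ℝ) :=
    ⟨max 1 ⌈(16 * q / η ^ 2 : ℝ)⌉₊, le_max_left _ _, (Nat.le_ceil _).trans (by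
      exact_mod_cast le_max_right _ _)⟩
  obtain ⟨Δ, hΔ⟩ : ∃ Δ : ℕ, Δ = 32 * (2 * (4 * d) * (8 * (4 * d) + 1)) := ⟨_, rfl⟩
  obtain ⟨D, hD⟩ : ∃ D : ℝ, D = (2 * (4 * d : ℕ) * (8 * (4 * d : ℕ) + 1) : ℝ) := ⟨_, rfl⟩
  have hD1 : 1 ≤ D := by
    rw [hD]
    have : (1 : ℝ) ≤ ((4 * d : ℕ) : ℝ) := by
      have : 1 ≤ 4 * d := by omega
      exact_mod_cast this
    nlinarith
  have hlogD : 0 ≤ Real.log D := Real.log_nonneg hD1
  have hlogp : 0 < Real.log (2 * q) := by
    apply Real.log_pos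
    have : (1 : ℝ) ≤ q := by exact_mod_cast hq0
    linarith
  obtain ⟨C1, hC1⟩ : ∃ C1 : ℝ, C1 = Real.log (2 * q) + 5 * Real.log D := ⟨_, rfl⟩
  have hC1pos : 0 < C1 := by rw [hC1]; positivity
  refine ⟨Δ, 1 / (4 * C1), by positivity, ?_⟩
  intro N
  obtain ⟨g0, hg0N, hg01⟩ : ∃ g0 : ℕ, N ≤ g0 ∧ 1 ≤ g0 :=
    ⟨max N 1, le_max_left _ _, le_max_right _ _⟩
  obtain ⟨U, _, G, h1, h2, h3, h4, h5⟩ := base_edges d g0 hd1
  rw [← hD] at h2
  rw [← hΔ] at h3
  obtain ⟨n, hn⟩ : ∃ n : ℕ, n = Fintype.card U := ⟨_, rfl⟩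
  rw [← hn] at h1 h2 h5
  have hn1 : 1 ≤ n := by omega
  obtain ⟨M, hM⟩ : ∃ M : ℕ, M = (univ.filter fun e : U × U => G.Adj e.1 e.2).card := ⟨_, rfl⟩
  rw [← hM] at h5
  have hn1R : (1 : ℝ) ≤ n := by exact_mod_cast hn1
  have hMn : 8 * q * n / η ^ 2 ≤ (M : ℝ) := by
    have h6 : (d : ℝ) * n ≤ 2 * M := by exact_mod_cast h5
    have h7 : 16 * q / η ^ 2 * n ≤ (d : ℝ) * n := by gcongr
    have h8 : 8 * q * n / η ^ 2 = 16 * q / η ^ 2 * n / 2 := by ring
    rw [h8]
    linarith
  have hM0 : 0 < M := by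
    have : (0 : ℝ) < M := lt_of_lt_of_le (by positivity) hMn
    exact_mod_cast this
  -- the number of constraints that can be satisfied
  obtain ⟨a, ha⟩ : ∃ a : ℕ, a = ⌊(1 / q + η) * (M : ℝ)⌋₊ + 1 := ⟨_, rfl⟩
  have hpos : (0 : ℝ) ≤ (1 / q + η) * (M : ℝ) := by positivity
  have ha1 : (1 / q + η) * (M : ℝ) ≤ a := by
    rw [ha]
    push_cast
    exact (Nat.lt_floor_add_one _).le
  have ha2 : ∀ b : ℕ, b < a → (b : ℝ) ≤ (1 / q + η) * (M : ℝ) := by
    intro b hb
    refine le_trans ?_ (Nat.floor_le hpos)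
    have : b ≤ ⌊(1 / q + η) * (M : ℝ)⌋₊ := by omega
    exact_mod_cast this
  -- the shifts
  let tL : (U × Bool → ZMod q) → U × U → ZMod q := fun L e => L (e.2, false) - L (e.1, true)
  have hcardL : Fintype.card (U × Bool → ZMod q) = q ^ (2 * n) := by
    rw [Fintype.card_fun, Fintype.card_prod, Fintype.card_bool, ZMod.card, ← hn, mul_comm n 2]
  obtain ⟨g, hg⟩ := exists_shift (P := ZMod q) (univ.filter fun e : U × U => G.Adj e.1 e.2) tL
    a (η / 2) (by positivity) (by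
    rw [hcardL, ZMod.card, ← hM]
    exact numeric q n M a η hq hη hη1 hn1 hMn ha1)
  have hV : Fintype.card ((U × Bool) × ZMod q) = 2 * n * q := by
    rw [Fintype.card_prod, Fintype.card_prod, Fintype.card_bool, ZMod.card, ← hn]
    ring
  have hlogV : Real.log (Fintype.card ((U × Bool) × ZMod q)) ≤ ((g0 : ℕ) + 1) * (2 * C1) := by
    rw [hV]
    have hnpos : (0 : ℝ) < n := by exact_mod_cast hn1
    have e1 : Real.log ((2 * n * q : ℕ) : ℝ) = Real.log (2 * q) + Real.log n := by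
      rw [← Real.log_mul (by positivity) (by positivity)]
      congr 1
      push_cast
      ring
    have e2 : Real.log n ≤ (2 * (g0 : ℕ) + 5) * Real.log D := by
      have := Real.log_le_log hnpos h2
      rw [Real.log_pow] at this
      push_cast at this
      exact this
    rw [e1, hC1]
    have : (0 : ℝ) ≤ ((g0 : ℕ) : ℝ) := by positivity
    nlinarith
  have hbound : ∀ b : ℕ, (b : ℝ) ≤ 1 / (4 * C1) * Real.log (Fintype.card ((U × Bool) × ZMod q)) →
      2 * b ≤ g0 + 1 := by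
    intro b hb
    have e4 : (b : ℝ) ≤ ((g0 : ℕ) + 1) / 2 := by
      refine hb.trans ?_
      calc 1 / (4 * C1) * Real.log (Fintype.card ((U × Bool) × ZMod q))
          ≤ 1 / (4 * C1) * (((g0 : ℕ) + 1) * (2 * C1)) := by gcongr
        _ = ((g0 : ℕ) + 1) / 2 := by field_simp; norm_num
    have e5 : (2 * b : ℝ) ≤ (g0 : ℕ) + 1 := by linarith
    exact_mod_cast e5
  have hfar := ug_far G g g (L := g0) h4
  -- the value of `Y`
  have hvalY : ∀ L : (U × Bool) × ZMod q → ZMod q,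
      (numSat (ug G g 0) L : ℝ) ≤ (1 / q + η) * numCon (ug G g 0) := by
    intro L
    rw [numCon_ug, numSat_ug, ← hM]
    push_cast
    have h6 : ∀ z : ZMod q, (((univ.filter fun e : U × U => G.Adj e.1 e.2).filter
        fun e => g e = L ((e.2, false), z + (0 : U × U → ZMod q) e) - L ((e.1, true), z)).card : ℝ) ≤
        (1 / q + η) * (M : ℝ) := by
      intro z
      apply ha2
      refine lt_of_le_of_lt (card_le_card ?_) (hg fun s => L (s, z))
      intro e he
      rw [mem_filter] at he ⊢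
      refine ⟨he.1, ?_⟩
      have := he.2
      simpa using this
    calc _ ≤ ∑ z : ZMod q, (1 / q + η) * (M : ℝ) := sum_le_sum fun z _ => h6 z
      _ = (1 / q + η) * ((M : ℝ) * q) := by
        rw [sum_const, card_univ, ZMod.card, nsmul_eq_mul]
        ring
  refine ⟨(U × Bool) × ZMod q, inferInstance, ug G g g, ug G g 0, ?_, ug_unique G g g,
    ug_unique G g 0, ?_, ?_, fun v => ⟨ug_degree G g g h3 v, ug_degree G g 0 h3 v⟩,
    ug_satisfiable G g, hvalY, ?_, ?_, ?_⟩
  · rw [hV]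
    have : 2 * n * 1 ≤ 2 * n * q := Nat.mul_le_mul_left _ hq0
    omega
  · rw [numCon_ug, ← hM]
    exact Nat.mul_pos hM0 hq0
  · rw [numCon_ug, numCon_ug]
  · -- the views
    intro R hR v
    have h6 := hbound (R + 2) (by push_cast; exact hR)
    exact sameView G g g _ _ hfar (by omega) v v.2 (fun _ _ => rfl)
  · -- randomised local algorithms
    intro R Ω _ A hR
    have h6 := hbound (R + 2) (by push_cast; exact hR)
    have h7 := expected G g g A hfar (by omega)
    have h8 : ∑ ω : (U × Bool) × ZMod q → Ω, (numSat (ug G g g) (A.out (ug G g g) ω) : ℝ) =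
        ∑ ω : (U × Bool) × ZMod q → Ω, (numSat (ug G g 0) (A.out (ug G g 0) ω) : ℝ) := by
      exact_mod_cast h7
    have h9 : numCon (ug G g g) = numCon (ug G g 0) := by rw [numCon_ug, numCon_ug]
    have h10 : ∑ ω : (U × Bool) × ZMod q → Ω, (numSat (ug G g g) (A.out (ug G g g) ω) : ℝ) ≤
        (1 / q + η) * numCon (ug G g g) * Fintype.card ((U × Bool) × ZMod q → Ω) := by
      rw [h8, h9]
      refine (sum_le_sum fun ω _ => hvalY _).trans ?_
      rw [sum_const, card_univ, nsmul_eq_mul]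
      apply le_of_eq
      ring
    refine le_of_eq_of_le ?_ (h10.trans (le_of_eq ?_))
    · exact sum_inst _ _ _
    · rw [card_inst _ _]
  · -- local search
    intro S _ lab r m t F start hbd hsym
    have hL : m * (2 * t + 2 * r + 1) ≤ g0 := by
      have e6 := hbound (m * (t + r + 1)) (by push_cast; exact hbd)
      rcases Nat.eq_zero_or_pos m with rfl | hm
      · omega
      · have e7 : m * (2 * t + 2 * r + 1) + m = 2 * (m * (t + r + 1)) := by ring
        omega
    have hstart : ∀ (a : ZMod q) x, start (x.1, x.2 + a) = start x := by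
      intro a x
      let φ : ((U × Bool) × ZMod q) ≃ ((U × Bool) × ZMod q) :=
        ⟨fun x => (x.1, x.2 + a), fun x => (x.1, x.2 - a), fun x => by simp, fun x => by simp⟩
      exact hsym φ ⟨fun v => hfar.hside a v, fun u v => hfar.hcon a u v⟩ x
    obtain ⟨σ, hinv, hrun, hstuck⟩ := hfar.run F hL start hstart
    refine ⟨σ, hrun, hstuck, ?_⟩
    have hσ : ∀ s x, σ (s, x) = σ (s, 0) := by
      intro s x
      have := hinv x (s, 0)
      simpa using this
    rw [numCon_ug, numSat_ug, ← hM]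
    push_cast
    have h6 : ∀ z : ZMod q, (((univ.filter fun e : U × U => G.Adj e.1 e.2).filter
        fun e => g e = lab ((ug G g g).side ((e.2, false), z + g e)) (σ ((e.2, false), z + g e)) -
          lab ((ug G g g).side ((e.1, true), z)) (σ ((e.1, true), z))).card : ℝ) ≤
        (1 / q + η) * (M : ℝ) := by
      intro z
      apply ha2
      refine lt_of_le_of_lt (card_le_card ?_) (hg fun s => lab s.2 (σ (s, 0)))
      intro e he
      rw [mem_filter] at he ⊢
      refine ⟨he.1, ?_⟩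
      have h7 := he.2
      rw [hσ _ (z + g e), hσ _ z] at h7
      exact h7
    calc _ ≤ ∑ z : ZMod q, (1 / q + η) * (M : ℝ) := sum_le_sum fun z _ => h6 z
      _ = (1 / q + η) * ((M : ℝ) * q) := by
        rw [sum_const, card_univ, ZMod.card, nsmul_eq_mul]
        ring

end Pool.Agent.K6.H34.UG
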