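import Pool.Agent.TH912.LG.Upper

set_option autoImplicit false

/-! Local optima for moves inside one ball of radius `O(log n / ε)` are optimal up to `ε`. -/

namespace Pool.Agent.K6.H34.UG

open Finset
open Pool.Agent.TH912.LG
open Pool.Agent.TH912.LS (ball mem_ball ball_self ball_symm ball_trans ball_mono ball_adj gb gb_sub
  gb_mono gb_ball gb_adj v_mem_gb)

open Classical in
theorem upper {Q V : Type} [Fintype V] (X : Game Q V) (L σ : V → Q) (ε : ℝ) (hε : 0 < ε)
    (N t : ℕ) (hN : ((CS X).card : ℝ) ≤ (1 + ε) ^ N) (hN1 : 1 ≤ N) (ht : N ≤ t)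
    (hσ : ∀ σ', ¬ Step (violCost Q) 1 t X σ σ') :
    ((VS X σ).card : ℝ) ≤ (VS X L).card + 3 * ε * numCon X := by
  obtain ⟨cl, h1, h2⟩ := clustersE X ε hε N hN hN1 univ
  have h3 : ins X univ = CS X := by
    ext e
    simp [ins]
  rw [h3] at h2
  simp only [mem_univ, true_and] at h2
  set cut : Finset (V × V) := (CS X).filter fun e => cl e.1 ≠ cl e.2 with hcut
  have key : ∀ c : V, ((VS X σ).filter fun e => cl e.1 = c ∧ cl e.2 = c).card ≤
      ((VS X L).filter fun e => cl e.1 = c ∧ cl e.2 = c).card +
      ((cut.filter fun e => cl e.1 = c).card + (cut.filter fun e => cl e.2 = c).card) := by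
    intro c
    let σ' : V → Q := fun x => if cl x = c then L x else σ x
    have hle : (violCost Q).total X σ ≤ (violCost Q).total X σ' := by
      by_contra hlt
      push Not at hlt
      refine hσ σ' ⟨⟨{c}, by simp, ?_⟩, hlt⟩
      intro v hv
      refine ⟨c, by simp, ?_⟩
      have hvc : cl v = c := by
        by_contra h
        exact hv (if_neg h)
      have h4 := h1 v (mem_univ _)
      rw [hvc] at h4
      exact ball_mono h4 ht
    rw [violCost_total, violCost_total] at hle
    have hle' : (VS X σ).card ≤ (VS X σ').card := by exact_mod_cast hle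
    have h4 : VS X σ' ⊆ ((VS X σ).filter fun e => cl e.1 ≠ c ∧ cl e.2 ≠ c) ∪
        (((VS X L).filter fun e => cl e.1 = c ∧ cl e.2 = c) ∪
        ((cut.filter fun e => cl e.1 = c) ∪ (cut.filter fun e => cl e.2 = c))) := by
      intro e he
      obtain ⟨π, hπ, hne⟩ := (mem_filter.mp he).2
      have heC : e ∈ CS X := (mem_CS X).mpr (by rw [hπ]; simp)
      by_cases a : cl e.1 = c <;> by_cases b : cl e.2 = c
      · refine mem_union_right _ (mem_union_left _ (mem_filter.mpr ⟨?_, a, b⟩))
        refine mem_filter.mpr ⟨mem_univ _, π, hπ, ?_⟩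
        simp only [σ', if_pos a, if_pos b] at hne
        exact hne
      · refine mem_union_right _ (mem_union_right _ (mem_union_left _ (mem_filter.mpr ⟨?_, a⟩)))
        refine mem_filter.mpr ⟨heC, ?_⟩
        rw [a]
        exact Ne.symm b
      · refine mem_union_right _ (mem_union_right _ (mem_union_right _ (mem_filter.mpr ⟨?_, b⟩)))
        refine mem_filter.mpr ⟨heC, ?_⟩
        rw [b]
        exact a
      · refine mem_union_left _ (mem_filter.mpr ⟨?_, a, b⟩)
        refine mem_filter.mpr ⟨mem_univ _, π, hπ, ?_⟩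
        simp only [σ', if_neg a, if_neg b] at hne
        exact hne
    have h5 := (card_le_card h4).trans ((card_union_le _ _).trans
      (Nat.add_le_add_left ((card_union_le _ _).trans
        (Nat.add_le_add_left (card_union_le _ _) _)) _))
    have h6 : ((VS X σ).filter fun e => cl e.1 = c ∧ cl e.2 = c).card +
        ((VS X σ).filter fun e => cl e.1 ≠ c ∧ cl e.2 ≠ c).card ≤ (VS X σ).card := by
      rw [← card_union_of_disjoint]
      · exact card_le_card (union_subset (filter_subset _ _) (filter_subset _ _))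
      · rw [disjoint_left]
        intro e he he'
        exact (mem_filter.mp he').2.1 (mem_filter.mp he).2.1
    omega
  have hfib : ∀ τ : V → Q, ((VS X τ).filter fun e => cl e.1 = cl e.2).card =
      ∑ c : V, ((VS X τ).filter fun e => cl e.1 = c ∧ cl e.2 = c).card := by
    intro τ
    rw [card_eq_sum_card_fiberwise (f := fun e : V × V => cl e.1) (t := univ) (fun x _ => mem_univ _)]
    refine sum_congr rfl fun c _ => ?_
    rw [filter_filter]
    congr 1
    apply filter_congr
    intro e _
    constructor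
    · rintro ⟨a, b⟩
      exact ⟨b, by rw [← a, b]⟩
    · rintro ⟨a, b⟩
      exact ⟨by rw [a, b], a⟩
  have hsum : ((VS X σ).filter fun e => cl e.1 = cl e.2).card ≤ (VS X L).card + 2 * cut.card := by
    have e2 : cut.card = ∑ c : V, (cut.filter fun e => cl e.1 = c).card :=
      card_eq_sum_card_fiberwise (f := fun e : V × V => cl e.1) (t := univ) (fun x _ => mem_univ _)
    have e3 : cut.card = ∑ c : V, (cut.filter fun e => cl e.2 = c).card :=
      card_eq_sum_card_fiberwise (f := fun e : V × V => cl e.2) (t := univ) (fun x _ => mem_univ _)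
    calc ((VS X σ).filter fun e => cl e.1 = cl e.2).card
        = ∑ c : V, ((VS X σ).filter fun e => cl e.1 = c ∧ cl e.2 = c).card := hfib σ
      _ ≤ ∑ c : V, (((VS X L).filter fun e => cl e.1 = c ∧ cl e.2 = c).card +
            ((cut.filter fun e => cl e.1 = c).card +
            (cut.filter fun e => cl e.2 = c).card)) := sum_le_sum fun c _ => key c
      _ = ((VS X L).filter fun e => cl e.1 = cl e.2).card + (cut.card + cut.card) := by
          rw [sum_add_distrib, sum_add_distrib, ← e2, ← e3, hfib L]
      _ ≤ (VS X L).card + 2 * cut.card := by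
          have := card_le_card (filter_subset (fun e : V × V => cl e.1 = cl e.2) (VS X L))
          omega
  have hrest : ((VS X σ).filter fun e => ¬ cl e.1 = cl e.2).card ≤ cut.card := by
    apply card_le_card
    intro e he
    obtain ⟨he, hne⟩ := mem_filter.mp he
    obtain ⟨π, hπ, _⟩ := (mem_filter.mp he).2
    exact mem_filter.mpr ⟨(mem_CS X).mpr (by rw [hπ]; simp), hne⟩
  have hall := card_filter_add_card_filter_not (s := VS X σ) (fun e : V × V => cl e.1 = cl e.2)
  have hfin : (VS X σ).card ≤ (VS X L).card + 3 * cut.card := by omega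
  have hfinR : ((VS X σ).card : ℝ) ≤ (VS X L).card + 3 * cut.card := by exact_mod_cast hfin
  rw [numCon_eq]
  have h2' : (cut.card : ℝ) ≤ ε * (CS X).card := h2
  linarith

theorem upper_log {Q V : Type} [Fintype V] (X : Game Q V) (L σ : V → Q) (ε : ℝ) (t : ℕ)
    (hε : 0 < ε) (hε1 : ε ≤ 1) (ht : 12 / ε * Real.log (numCon X) + 1 ≤ t)
    (hσ : ∀ σ', ¬ Step (violCost Q) 1 t X σ σ') :
    (numSat X L : ℝ) - ε * numCon X ≤ numSat X σ := by
  have hsumσ : (numSat X σ : ℝ) + (VS X σ).card = numCon X := by exact_mod_cast numSat_eq X σ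
  have hsumL : (numSat X L : ℝ) + (VS X L).card = numCon X := by exact_mod_cast numSat_eq X L
  rcases Nat.eq_zero_or_pos (numCon X) with h0 | hpos
  · have e1 : (numSat X L : ℝ) + (VS X L).card = 0 := by rw [hsumL, h0]; simp
    have e2 : (0 : ℝ) ≤ (VS X L).card := by positivity
    have e3 : (0 : ℝ) ≤ numSat X σ := by positivity
    rw [h0]
    push_cast
    linarith
  have hcard : (1 : ℝ) ≤ numCon X := by exact_mod_cast hpos
  set δ : ℝ := ε / 3 with hδ
  have hδ0 : 0 < δ := by positivity
  have hlog : δ / 2 ≤ Real.log (1 + δ) := by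
    have h1 := Real.one_sub_inv_le_log_of_pos (show (0 : ℝ) < 1 + δ by linarith)
    refine le_trans ?_ h1
    have h2 : 1 - (1 + δ)⁻¹ = δ / (1 + δ) := by field_simp; ring
    rw [h2]
    exact div_le_div_of_nonneg_left hδ0.le (by linarith) (by linarith)
  have hlogpos : 0 < Real.log (1 + δ) := by linarith
  have hl0 : 0 ≤ Real.log (numCon X) := Real.log_nonneg hcard
  set N : ℕ := ⌊Real.log (numCon X) / Real.log (1 + δ)⌋₊ + 1 with hN
  have hN1 : Real.log (numCon X) / Real.log (1 + δ) ≤ N := by
    rw [hN]; push_cast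
    exact (Nat.lt_floor_add_one _).le
  have hN2 : (N : ℝ) ≤ Real.log (numCon X) / Real.log (1 + δ) + 1 := by
    rw [hN]; push_cast
    have := Nat.floor_le (div_nonneg hl0 hlogpos.le)
    linarith
  have hpow : (numCon X : ℝ) ≤ (1 + δ) ^ N := by
    rw [div_le_iff₀ hlogpos] at hN1
    rw [← Real.log_le_log_iff (by linarith) (by positivity), Real.log_pow]
    exact hN1
  have h3 : Real.log (numCon X) / Real.log (1 + δ) ≤ Real.log (numCon X) / (δ / 2) :=
    div_le_div_of_nonneg_left hl0 (by linarith) hlog
  have h4 : Real.log (numCon X) / (δ / 2) = 6 / ε * Real.log (numCon X) := by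
    rw [hδ]
    field_simp
    ring
  have h5 : 6 / ε * Real.log (numCon X) ≤ 12 / ε * Real.log (numCon X) := by
    have : 6 / ε ≤ 12 / ε := by gcongr; norm_num
    exact mul_le_mul_of_nonneg_right this hl0
  have h6 : (N : ℝ) ≤ t := by
    rw [h4] at h3
    linarith
  have h7 := upper X L σ δ hδ0 N t (by rw [← numCon_eq]; exact hpow) (by omega)
    (by exact_mod_cast h6) hσ
  have h8 : 3 * δ * numCon X = ε * numCon X := by rw [hδ]; ring
  rw [h8] at h7
  linarith

end Pool.Agent.K6.H34.UG
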