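import Pool.Agent.K6.H34.UG.Cover

set_option autoImplicit false

/-! The local views in two covers with the same constraints are the same. -/

namespace Pool.Agent.K6.H34.UG

open Pool.Agent.TH912.LG
open Pool.Agent.TH912.LS (ball mem_ball ball_self ball_symm ball_trans ball_mono ball_adj dc)
open Pool.Agent.W179.Erdos (FCyc)

variable {U : Type} {p : ℕ} (G : SimpleGraph U) (g h : U × U → ZMod p)

theorem adj_of_con {x y : (U × Bool) × ZMod p} (hc : (ug G g h).con x y ≠ none) :
    (ug G g h).gr.Adj x y := by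
  refine ⟨?_, Or.inl hc⟩
  rintro rfl
  rw [con_ne] at hc
  exact G.loopless.irrefl _ hc.2.2.1

/-- the neighbour over a neighbour of the base -/
theorem exists_nb (x : (U × Bool) × ZMod p) (s : U × Bool) (hs : (dc G).Adj x.1 s) :
    ∃ z, (ug G g h).gr.Adj x (s, z) := by
  obtain ⟨h1, h2⟩ := hs
  cases hx : x.1.2
  · refine ⟨x.2 - h (s.1, x.1.1), (adj_of_con G g h ?_).symm⟩
    rw [con_ne]
    refine ⟨?_, hx, h1.symm, by ring⟩
    rw [hx] at h2
    simpa using h2.symm
  · refine ⟨x.2 + h (x.1.1, s.1), adj_of_con G g h ?_⟩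
    rw [con_ne]
    refine ⟨hx, ?_, h1, rfl⟩
    rw [hx] at h2
    simpa using h2.symm

theorem lift_walk : ∀ {u v : (U × Bool) × ZMod p} (w : (ug G g 0).gr.Walk u v)
    (x : (U × Bool) × ZMod p), x.1 = u.1 →
    ∃ y, y.1 = v.1 ∧ ∃ w' : (ug G g h).gr.Walk x y, w'.length = w.length := by
  intro u v w
  induction w with
  | nil => intro x hx; exact ⟨x, hx, SimpleGraph.Walk.nil, rfl⟩
  | @cons u z v hz w ih =>
    intro x hx
    have h1 := gr_adj G g 0 hz
    rw [← hx] at h1
    obtain ⟨z', hz'⟩ := exists_nb G g h x z.1 h1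
    obtain ⟨y, hy, w', hw'⟩ := ih (z.1, z') rfl
    exact ⟨y, hy, SimpleGraph.Walk.cons hz' w', by simp [hw']⟩

theorem unique_sheet {L : ℕ} (hfar : Far (ug G g h) (fun (a : ZMod p) x => (x.1, x.2 + a)) L)
    {x y z : (U × Bool) × ZMod p} {m n : ℕ} (hy : y ∈ ball (ug G g h).gr x m)
    (hz : z ∈ ball (ug G g h).gr x n) (hmn : m + n ≤ L) (hyz : y.1 = z.1) : y = z := by
  have h1 : z ∈ ball (ug G g h).gr y L := ball_mono (ball_trans (ball_symm hy) hz) hmn
  have h2 := hfar.far (z.2 - y.2) y (by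
    have : (y.1, y.2 + (z.2 - y.2)) = z := Prod.ext hyz (by ring)
    show (y.1, y.2 + (z.2 - y.2)) ∈ _
    rw [this]
    exact h1)
  exact Prod.ext hyz (sub_eq_zero.mp h2).symm

theorem proj_ball (k : ZMod p) {x y : (U × Bool) × ZMod p} {n : ℕ}
    (hy : y ∈ ball (ug G g h).gr x n) : (y.1, k) ∈ ball (ug G g 0).gr (x.1, k) n := by
  obtain ⟨w, hw⟩ := hy
  let f : (ug G g h).gr →g (ug G g 0).gr :=
    { toFun := fun y => (y.1, k)
      map_rel' := by
        rintro a b ⟨_, hab⟩
        rcases hab with hab | hab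
        · rw [con_ne] at hab
          refine adj_of_con G g 0 ?_
          rw [con_ne]
          exact ⟨hab.1, hab.2.1, hab.2.2.1, by simp⟩
        · rw [con_ne] at hab
          refine (adj_of_con G g 0 ?_).symm
          rw [con_ne]
          exact ⟨hab.1, hab.2.1, hab.2.2.1, by simp⟩ }
  exact ⟨w.map f, by rw [SimpleGraph.Walk.length_map]; exact hw⟩

theorem sheet_zero {x y : (U × Bool) × ZMod p} (w : (ug G g 0).gr.Walk x y) : y.2 = x.2 := by
  induction w with
  | nil => rfl
  | @cons x z y hz w ih =>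
    rw [ih]
    obtain ⟨_, hz | hz⟩ := hz
    · rw [con_ne] at hz
      simpa using hz.2.2.2
    · rw [con_ne] at hz
      simpa using hz.2.2.2.symm

/-- The radius-`R` view of a vertex `x` in the cover is the same as the radius-`R` view of the vertex
of the trivial cover below it, in any sheet `k`, if the states are the same. -/
theorem sameView {S : Type} (ω ω' : (U × Bool) × ZMod p → S) {L R : ℕ}
    (hfar : Far (ug G g h) (fun (a : ZMod p) x => (x.1, x.2 + a)) L) (hR : 2 * R + 1 ≤ L)
    (x : (U × Bool) × ZMod p) (k : ZMod p)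
    (hω : ∀ y ∈ ball (ug G g h).gr x R, ω' (y.1, k) = ω y) :
    SameView R (ug G g h) ω x (ug G g 0) ω' (x.1, k) := by
  classical
  let f : ball (ug G g h).gr x R → ball (ug G g 0).gr (x.1, k) R := fun y =>
    ⟨((y : (U × Bool) × ZMod p).1, k), proj_ball G g h k y.2⟩
  have hf : Function.Bijective f := by
    constructor
    · intro y z hyz
      have h1 : (y : (U × Bool) × ZMod p).1 = (z : (U × Bool) × ZMod p).1 := by
        have := congrArg (fun t : ball (ug G g 0).gr (x.1, k) R => (t : (U × Bool) × ZMod p).1) hyz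
        exact this
      exact Subtype.ext (unique_sheet G g h hfar y.2 z.2 (by omega) h1)
    · rintro ⟨y, w, hw⟩
      obtain ⟨z, hz, w', hw'⟩ := lift_walk G g h w x rfl
      refine ⟨⟨z, w', by omega⟩, Subtype.ext ?_⟩
      show (z.1, k) = y
      exact Prod.ext hz (sheet_zero G g w).symm
  refine ⟨Equiv.ofBijective f hf, ?_, ?_, ?_, ?_⟩
  · intro y
    show (y : (U × Bool) × ZMod p) = x ↔ ((y : (U × Bool) × ZMod p).1, k) = (x.1, k)
    constructor
    · intro h1
      rw [h1]
    · intro h1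
      have h2 : (y : (U × Bool) × ZMod p).1 = x.1 := by
        have h3 := congrArg Prod.fst h1
        exact h3
      exact unique_sheet G g h hfar y.2 (ball_self _ x 0) (by omega) h2
  · intro y
    rfl
  · intro y z
    show (ug G g h).con y z = (ug G g 0).con ((y : (U × Bool) × ZMod p).1, k)
      ((z : (U × Bool) × ZMod p).1, k)
    by_cases hc : (y : (U × Bool) × ZMod p).1.2 = true ∧ (z : (U × Bool) × ZMod p).1.2 = false ∧
        G.Adj (y : (U × Bool) × ZMod p).1.1 (z : (U × Bool) × ZMod p).1.1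
    · have h1 : (z : (U × Bool) × ZMod p).2 = (y : (U × Bool) × ZMod p).2 +
          h ((y : (U × Bool) × ZMod p).1.1, (z : (U × Bool) × ZMod p).1.1) := by
        have h2 : (ug G g h).gr.Adj (y : (U × Bool) × ZMod p)
            ((z : (U × Bool) × ZMod p).1, (y : (U × Bool) × ZMod p).2 +
              h ((y : (U × Bool) × ZMod p).1.1, (z : (U × Bool) × ZMod p).1.1)) := by
          apply adj_of_con
          rw [con_ne]
          exact ⟨hc.1, hc.2.1, hc.2.2, rfl⟩
        have h3 := ball_trans y.2 (ball_adj h2)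
        have h4 := unique_sheet G g h hfar z.2 h3 (by omega) rfl
        exact congrArg Prod.snd h4
      unfold ug
      dsimp only
      rw [if_pos ⟨hc.1, hc.2.1, hc.2.2, h1⟩, if_pos ⟨hc.1, hc.2.1, hc.2.2, by simp⟩]
    · unfold ug
      dsimp only
      rw [if_neg fun h' => hc ⟨h'.1, h'.2.1, h'.2.2.1⟩,
        if_neg fun h' => hc ⟨h'.1, h'.2.1, h'.2.2.1⟩]
  · intro y
    exact (hω y y.2).symm

end Pool.Agent.K6.H34.UG
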